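import Mathlib
import Pool.Agent.K9h38.FM.Proof

/-!
# Condition 2 does not imply condition 1: a disproof of Q1 for every `F` and every `l`

Let `F` be a number field and `l` a prime. There is a continuous character
`ρ : G_F → GL_1(ℚ̄_l)`, unramified outside `l`, whose Weil-Deligne representations at all finite
places `v ∤ l` are integral and pure of weight `1`, but which is not de Rham at any place above `l`.
It is, up to a character of finite order, the inverse of the square root of the cyclotomic
character: a geometric Frobenius at `v` acts by a number `α` with `α ^ (2 M) = q_v ^ M`, while the
Hodge-Tate-Sen weight at the places above `l` is `1 / 2`.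

The proof that `ρ` is not de Rham: an invariant of `B_dR ⊗ V` gives a nonzero element of `ℂ_l` on
which an open subgroup of `Gal(ℚ̄_l / ℚ_l)` acts by an odd (so nonzero) power of the cyclotomic
character, and a product of conjugates is then such an element for the whole group; this
contradicts Tate's theorem `H^0(ℚ_l, ℂ_l(k)) = 0`, `k ≠ 0`, which is proved here with Ax's lemma
and the normalised traces of the cyclotomic tower.

The definitions used in the statement are in `Pool/Agent/K9h38/FM/Defs.lean`.
-/

set_option autoImplicit false

namespace Pool.Agent.Results.MP_395897_nt.PureNotDeRham

open Pool.Agent.K9h38.FM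

/-- For every number field `F` and every prime `l` there is an irreducible continuous representation
of `G_F` over `ℚ̄_l`, of dimension one and unramified at all but finitely many places, which satisfies
condition 2 of the problem but not condition 1. It is de Rham at no place above `l`. -/
theorem result (F : Type) [Field F] [NumberField F] (l : ℕ) [Fact l.Prime] :
    ∃ ρ : Gal(AlgebraicClosure F/F) →* GL (Fin 1) (PadicAlgCl l),
      Continuous ρ ∧ IsIrred ρ ∧ AlmostUnramified ρ ∧ Condition2 ρ ∧
        (∀ ι : AlgebraicClosure F →+* PadicAlgCl l, ¬ IsDeRham ρ ι) ∧ ¬ Condition1 ρ :=
  main F l

end Pool.Agent.Results.MP_395897_nt.PureNotDeRham
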